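import Pool.Agent.Helper73_SGY.Asm

/-!
# MP_41797f_co: a planar graph and a graph which is outerplanar after deletion of one vertex

Partial answer to Q1 (simultaneous geometric embedding without mapping): Q1 holds for all pairs
`G₁`, `G₂` of graphs on `n` vertices, where `G₁` is any planar graph and `G₂` has a vertex `v` such
that `G₂ - v` is outerplanar (has a one-page book embedding).  The vertex `v` can be adjacent to
all other vertices of `G₂`.
-/

noncomputable section

namespace Pool.Agent.Results.MP_41797f_co.ApexOuterplanar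

/-- `f` is a straight-line crossing-free drawing of `G`: the vertices are at distinct points, two
different edges (unordered pairs `s(a, b)`, `s(c, d)`) meet at most in common end points, and an
edge contains no vertex other than its end points. -/
structure Drawing {V : Type} (G : SimpleGraph V) (f : V → ℝ × ℝ) : Prop where
  inj : Function.Injective f
  cross : ∀ a b c d : V, G.Adj a b → G.Adj c d → s(a, b) ≠ s(c, d) →
    segment ℝ (f a) (f b) ∩ segment ℝ (f c) (f d) ⊆
      (({f a, f b} : Set (ℝ × ℝ)) ∩ ({f c, f d} : Set (ℝ × ℝ)))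
  vert : ∀ v a b : V, G.Adj a b → f v ∈ segment ℝ (f a) (f b) → v = a ∨ v = b

/-- A graph is planar if it has a straight-line crossing-free drawing. -/
def Planar {V : Type} (G : SimpleGraph V) : Prop := ∃ f, Drawing G f

/-- `H` is outerplanar, in the form of a one-page book embedding: the vertices of `H` have
different numbers `r x` such that `H` has no two edges `xz`, `yt` with
`r x < r y < r z < r t`. -/
def Outerplanar {V : Type} (H : SimpleGraph V) : Prop :=
  ∃ r : V → ℕ, Function.Injective r ∧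
    ∀ x y z t : V, r x < r y → r y < r z → r z < r t → ¬ (H.Adj x z ∧ H.Adj y t)

/-- Q1 holds for `G₁`, `G₂` if `G₁` is planar and `G₂` is outerplanar after deletion of some
vertex `v`. -/
theorem result : ∀ (n : ℕ) (G₁ G₂ : SimpleGraph (Fin n)), Planar G₁ →
    (∃ v, Outerplanar (G₂.induce {u | u ≠ v})) →
    ∃ P : Finset (ℝ × ℝ), P.card = n ∧ (∃ f, Drawing G₁ f ∧ ∀ u, f u ∈ P) ∧
      ∃ f, Drawing G₂ f ∧ ∀ u, f u ∈ P := by
  intro n G₁ G₂ hG h
  obtain ⟨v, r, hr, hc⟩ := h
  obtain ⟨f₀, hf₀⟩ := hG
  obtain ⟨P, hP, ⟨f, hf, hf'⟩, g, hg, hg'⟩ :=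
    SGY.H73.thyA n G₁ G₂ ⟨f₀, hf₀.inj, hf₀.cross, hf₀.vert⟩ v ⟨r, hr, hc⟩
  exact ⟨P, hP, ⟨f, ⟨hf.inj, hf.cross, hf.vert⟩, hf'⟩, g, ⟨hg.inj, hg.cross, hg.vert⟩, hg'⟩

end Pool.Agent.Results.MP_41797f_co.ApexOuterplanar
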