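import Pool.Agent.Helper90_SGK.Fam

/-!
# MP_41797f_co: any planar graph and planar graphs with together a linear number of vertices

Partial answer to Q1 (simultaneous geometric embedding without mapping).  For every `n` and every
`k ≤ (n + 7) / 6` (`k ≤ n`), ANY planar graph `G₁` on `n` vertices and ANY planar graph `G₂` on `k`
vertices have an SGE-nomap (known before: `k ≤ √(n / 2)`).  More generally `k ≤ n` is arbitrary and
`G₂` has at most `(n + 7) / 6` non-isolated vertices (for `k = n` this is Q1 for these pairs), and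
instead of one graph `G₂` there may be finitely many planar graphs on at most `n` vertices which have
together at most `(n + 7) / 6` non-isolated vertices.
-/

noncomputable section

namespace Pool.Agent.Results.MP_41797f_co.LinearSecondGraph

/-- `f` is a straight-line crossing-free drawing of `G`: the vertices are at distinct points, two
different edges (unordered pairs `s(a, b)`, `s(c, d)`) meet at most in common end points, and an
edge contains no vertex other than its end points. -/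
structure Drawing {V : Type} (G : SimpleGraph V) (f : V → ℝ × ℝ) : Prop where
  inj : Function.Injective f
  cross : ∀ a b c d : V, G.Adj a b → G.Adj c d → s(a, b) ≠ s(c, d) →
    segment ℝ (f a) (f b) ∩ segment ℝ (f c) (f d) ⊆
      (({f a, f b} : Set (ℝ × ℝ)) ∩ ({f c, f d} : Set (ℝ × ℝ)))
  vert : ∀ v a b : V, G.Adj a b → f v ∈ segment ℝ (f a) (f b) → v = a ∨ v = b

/-- A graph is planar if it has a straight-line crossing-free drawing. -/
def Planar {V : Type} (G : SimpleGraph V) : Prop := ∃ f, Drawing G f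

theorem draw_iff {V : Type} {G : SimpleGraph V} {f : V → ℝ × ℝ} :
    Pool.Agent.SGE.Draw G f ↔ Drawing G f :=
  ⟨fun h => ⟨h.inj, h.cross, h.vert⟩, fun h => ⟨h.inj, h.cross, h.vert⟩⟩

/-- **Main theorem.**  For every planar graph `G₁` on `n` vertices and all planar graphs
`G 0, .., G (r - 1)` on `k 0, .., k (r - 1) ≤ n` vertices which have together at most `(n + 7) / 6`
non-isolated vertices (for `r = 1`, `k 0 ≤ (n + 7) / 6` this is no condition, see `allSmall`) there is
a set `P` of exactly `n` points such that all the `r + 1` graphs have straight-line crossing-free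
drawings with all vertices in `P`. -/
theorem result : ∀ (n r : ℕ) (k : Fin r → ℕ), (∀ i, k i ≤ n) → ∀ (G₁ : SimpleGraph (Fin n))
    (G : ∀ i, SimpleGraph (Fin (k i))), Planar G₁ → (∀ i, Planar (G i)) →
    6 * ∑ i, (G i).support.ncard ≤ n + 7 →
    ∃ P : Finset (ℝ × ℝ), P.card = n ∧ (∃ f, Drawing G₁ f ∧ ∀ u, f u ∈ P) ∧
      ∀ i, ∃ f, Drawing (G i) f ∧ ∀ u, f u ∈ P := by
  intro n r k hk G₁ G h₁ h₂ h
  obtain ⟨f₁, hf₁⟩ := h₁
  obtain ⟨P, hP, ⟨f, hf, hf'⟩, hg⟩ :=
    Pool.Agent.SGK.H90.mainFam n G₁ k hk G ⟨f₁, draw_iff.2 hf₁⟩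
      (fun i => by
        obtain ⟨f₂, hf₂⟩ := h₂ i
        exact ⟨f₂, draw_iff.2 hf₂⟩) h
  refine ⟨P, hP, ⟨f, draw_iff.1 hf, hf'⟩, fun i => ?_⟩
  obtain ⟨g, hg, hg'⟩ := hg i
  exact ⟨g, draw_iff.1 hg, hg'⟩

/-- Remark: two graphs. -/
theorem twoGraphs (n k : ℕ) (hk : k ≤ n) (G₁ : SimpleGraph (Fin n)) (G₂ : SimpleGraph (Fin k))
    (h₁ : Planar G₁) (h₂ : Planar G₂) (h : 6 * G₂.support.ncard ≤ n + 7) :
    ∃ P : Finset (ℝ × ℝ), P.card = n ∧ (∃ f, Drawing G₁ f ∧ ∀ u, f u ∈ P) ∧
      ∃ f, Drawing G₂ f ∧ ∀ u, f u ∈ P := by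
  obtain ⟨P, hP, hf, hg⟩ := result n 1 (fun _ => k) (fun _ => hk) G₁ (fun _ => G₂) h₁
    (fun _ => h₂) (by simpa using h)
  exact ⟨P, hP, hf, hg 0⟩

/-- Remark: the special case of all planar graphs on `k ≤ (n + 7) / 6` vertices. -/
theorem allSmall (n k : ℕ) (hk : k ≤ n) (h6 : 6 * k ≤ n + 7) (G₁ : SimpleGraph (Fin n))
    (G₂ : SimpleGraph (Fin k)) (h₁ : Planar G₁) (h₂ : Planar G₂) :
    ∃ P : Finset (ℝ × ℝ), P.card = n ∧ (∃ f, Drawing G₁ f ∧ ∀ u, f u ∈ P) ∧
      ∃ f, Drawing G₂ f ∧ ∀ u, f u ∈ P := by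
  refine twoGraphs n k hk G₁ G₂ h₁ h₂ (le_trans (Nat.mul_le_mul_left 6 ?_) h6)
  calc G₂.support.ncard ≤ (Set.univ : Set (Fin k)).ncard :=
        Set.ncard_le_ncard (Set.subset_univ _) (Set.toFinite _)
    _ = k := by rw [Set.ncard_univ, Nat.card_eq_fintype_card, Fintype.card_fin]

end Pool.Agent.Results.MP_41797f_co.LinearSecondGraph
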