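import Pool.Agent.Helper29_SGE.Main

/-!
# MP_41797f_co: planar graphs with a common half of the vertex positions

Partial answer to Q1 (simultaneous geometric embedding without mapping).  For all `r`, `m ≥ 1` and
`N` with `r m ≤ N + (r - 1) (⌊m / 2⌋ + 1)` there is a fixed set `Q` of `⌊m / 2⌋ + 1` points such
that any `r` planar graphs on `N` vertices with at most `m` non-isolated vertices each have a
simultaneous geometric embedding without mapping, on a set `P ⊇ Q` of `N` points.
-/

noncomputable section

namespace Pool.Agent.Results.MP_41797f_co.SharedHalf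

/-- `f` is a straight-line crossing-free drawing of `G`: the vertices are at distinct points, two
different edges (unordered pairs `s(a, b)`, `s(c, d)`) meet at most in common end points, and an
edge contains no vertex other than its end points. -/
structure Drawing {V : Type} (G : SimpleGraph V) (f : V → ℝ × ℝ) : Prop where
  inj : Function.Injective f
  cross : ∀ a b c d : V, G.Adj a b → G.Adj c d → s(a, b) ≠ s(c, d) →
    segment ℝ (f a) (f b) ∩ segment ℝ (f c) (f d) ⊆
      (({f a, f b} : Set (ℝ × ℝ)) ∩ ({f c, f d} : Set (ℝ × ℝ)))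
  vert : ∀ v a b : V, G.Adj a b → f v ∈ segment ℝ (f a) (f b) → v = a ∨ v = b

/-- A graph is planar if it has a straight-line crossing-free drawing. -/
def Planar {V : Type} (G : SimpleGraph V) : Prop := ∃ f, Drawing G f

/-- For `r = 1`, `N = m = n`: every planar graph on `n` vertices has a drawing in which every point
of the fixed set `Q` of `n / 2 + 1` points is a vertex.  For `r = 2`: Q1 holds for all pairs of
planar graphs on `N` vertices with at most `m` non-isolated vertices each,
`2 m ≤ N + (m / 2 + 1)`. -/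
theorem result : ∀ r m N : ℕ, 0 < r → 0 < m → r * m ≤ N + (r - 1) * (m / 2 + 1) →
    ∃ Q : Finset (ℝ × ℝ), Q.card = m / 2 + 1 ∧ ∀ G : Fin r → SimpleGraph (Fin N),
      (∀ i, Planar (G i)) → (∀ i, (G i).support.ncard ≤ m) →
      ∃ P : Finset (ℝ × ℝ), Q ⊆ P ∧ P.card = N ∧ ∀ i, ∃ f, Drawing (G i) f ∧ ∀ v, f v ∈ P := by
  intro r m N hr hm hN
  obtain ⟨Q, hQ, h⟩ := SGE.H29.finStmt r m N hr hm hN
  refine ⟨Q, hQ, fun G hG hs => ?_⟩
  obtain ⟨P, h1, h2, h3⟩ := h G (fun i => by
    obtain ⟨f, hf⟩ := hG i
    exact ⟨f, hf.inj, hf.cross, hf.vert⟩) hs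
  refine ⟨P, h1, h2, fun i => ?_⟩
  obtain ⟨f, hf, hf'⟩ := h3 i
  exact ⟨f, ⟨hf.inj, hf.cross, hf.vert⟩, hf'⟩

end Pool.Agent.Results.MP_41797f_co.SharedHalf
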