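import Pool.Agent.Helper90_SGL.AsmA

/-!
# MP_41797f_co: triangle-free planar graphs (and more) and leveled graphs

Partial answer to Q1 (simultaneous geometric embedding without mapping): Q1 holds for all pairs
`G₁`, `G₂` of graphs on `n` vertices, where `G₁` is a subgraph of a maximal planar graph `T` such that
the triangles of `G₁` which do not contain a certain vertex `a` are not separating in `T` (for
example: `G₁` planar and triangle-free, or `T` 4-connected), and `G₂` is a leveled graph.
-/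

noncomputable section

namespace Pool.Agent.Results.MP_41797f_co.TriangleFreeLeveled

/-- `f` is a straight-line crossing-free drawing of `G`: the vertices are at distinct points, two
different edges (unordered pairs `s(a, b)`, `s(c, d)`) meet at most in common end points, and an
edge contains no vertex other than its end points. -/
structure Drawing {V : Type} (G : SimpleGraph V) (f : V → ℝ × ℝ) : Prop where
  inj : Function.Injective f
  cross : ∀ a b c d : V, G.Adj a b → G.Adj c d → s(a, b) ≠ s(c, d) →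
    segment ℝ (f a) (f b) ∩ segment ℝ (f c) (f d) ⊆
      (({f a, f b} : Set (ℝ × ℝ)) ∩ ({f c, f d} : Set (ℝ × ℝ)))
  vert : ∀ v a b : V, G.Adj a b → f v ∈ segment ℝ (f a) (f b) → v = a ∨ v = b

/-- A graph is planar if it has a straight-line crossing-free drawing. -/
def Planar {V : Type} (G : SimpleGraph V) : Prop := ∃ f, Drawing G f

/-- A graph is maximal planar if it is planar and no further edge can be added. -/
def MaximalPlanar {V : Type} (T : SimpleGraph V) : Prop :=
  Planar T ∧ ∀ T' : SimpleGraph V, T ≤ T' → Planar T' → T' = T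

/-- The triangles of `G` which do not contain the vertex `a` do not separate `T`: the deletion of the
three vertices leaves a connected (or empty) graph. -/
def TrianglesAt {V : Type} (G T : SimpleGraph V) (a : V) : Prop :=
  ∀ x y z, G.Adj x y → G.Adj y z → G.Adj z x → a ≠ x → a ≠ y → a ≠ z →
    (T.induce {v | v ≠ x ∧ v ≠ y ∧ v ≠ z}).Preconnected

/-- `G` is a leveled graph with the end `t`: the vertices other than `t` are on the levels
`0, ..., h` (`h ≥ 1`), the vertices of a level are ordered by `pos`.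
Edges between different levels join consecutive levels without crossings, or they join the first
vertex of level `0` to the first vertex of a level.
Levels `1, ..., h - 1`: the edges join consecutive vertices, and only the last vertex may be joined
to `t`.
Level `0` with `t` as last vertex, and level `h` with `t` as last vertex: the edges do not cross if
they are drawn on one side of the level. -/
structure Leveled {V : Type} (G : SimpleGraph V) (t : V) (h : ℕ) (lev pos : V → ℕ) : Prop where
  height : 1 ≤ h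
  inj : ∀ u v, u ≠ t → v ≠ t → lev u = lev v → pos u = pos v → u = v
  le : ∀ v, v ≠ t → lev v ≤ h
  bottom : ∃ v, v ≠ t ∧ lev v = 0
  top : ∃ v, v ≠ t ∧ lev v = h
  path : ∀ u v w, u ≠ t → v ≠ t → w ≠ t → G.Adj u v → lev u = lev v → 1 ≤ lev u → lev u < h →
    lev w = lev u → ¬ (pos u < pos w ∧ pos w < pos v)
  next : ∀ u v, u ≠ t → v ≠ t → G.Adj u v → lev u < lev v → lev v = lev u + 1 ∨
    (lev u = 0 ∧ (∀ w, w ≠ t → lev w = 0 → pos u ≤ pos w) ∧
      ∀ w, w ≠ t → lev w = lev v → pos v ≤ pos w)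
  mono : ∀ u v u' v', u ≠ t → v ≠ t → u' ≠ t → v' ≠ t → G.Adj u v → G.Adj u' v' →
    lev v = lev u + 1 → lev u' = lev u → lev v' = lev v → pos u < pos u' → pos v ≤ pos v'
  last : ∀ u w, G.Adj u t → 1 ≤ lev u → lev u < h → w ≠ t → lev w = lev u → pos w ≤ pos u
  one : ∀ i, (i = 0 ∨ i = h) → ∀ p q r s, p ≠ t → q ≠ t → r ≠ t → lev p = i → lev q = i →
    lev r = i → (s = t ∨ (lev s = i ∧ pos r < pos s)) → pos p < pos q → pos q < pos r →
    ¬ (G.Adj p r ∧ G.Adj q s)

theorem draw_iff {V : Type} {G : SimpleGraph V} {f : V → ℝ × ℝ} :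
    Pool.Agent.SGE.Draw G f ↔ Drawing G f :=
  ⟨fun h => ⟨h.inj, h.cross, h.vert⟩, fun h => ⟨h.inj, h.cross, h.vert⟩⟩

theorem maxpl {n : ℕ} {T : SimpleGraph (Fin n)} (hT : MaximalPlanar T) :
    Pool.Agent.SGD.MaxPl T := by
  obtain ⟨⟨f, hf⟩, hm⟩ := hT
  refine ⟨⟨f, draw_iff.2 hf⟩, fun T' hle hp => hm T' hle ?_⟩
  obtain ⟨f', hf'⟩ := hp
  exact ⟨f', draw_iff.1 hf'⟩

theorem maxpl' {n : ℕ} {T : SimpleGraph (Fin n)} (hT : Pool.Agent.SGD.MaxPl T) :
    MaximalPlanar T := by
  obtain ⟨⟨f, hf⟩, hm⟩ := hT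
  refine ⟨⟨f, draw_iff.1 hf⟩, fun T' hle hp => hm T' hle ?_⟩
  obtain ⟨f', hf'⟩ := hp
  exact ⟨f', draw_iff.2 hf'⟩

/-- Remark: every triangle-free planar graph satisfies the condition on `G₁`. -/
theorem triangleFree {n : ℕ} (G : SimpleGraph (Fin n)) (hG : Planar G) (h3 : G.CliqueFree 3)
    (a : Fin n) : ∃ T, MaximalPlanar T ∧ G ≤ T ∧ TrianglesAt G T a := by
  obtain ⟨f, hf⟩ := hG
  obtain ⟨T, hT, hGT, h⟩ := Pool.Agent.SGL.H90.tfr_ G ⟨f, draw_iff.2 hf⟩ h3 a
  exact ⟨T, maxpl' hT, hGT, h⟩

/-- Remark: if the triangles of `T` which do not contain `a` do not separate `T` (for example if `T` is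
4-connected), then every subgraph of `T` satisfies the condition on `G₁`. -/
theorem subgraph {n : ℕ} {G T : SimpleGraph (Fin n)} {a : Fin n} (hT : MaximalPlanar T)
    (hG : G ≤ T) (h : TrianglesAt T T a) : ∃ T a, MaximalPlanar T ∧ G ≤ T ∧ TrianglesAt G T a :=
  ⟨T, a, hT, hG, fun x y z h1 h2 h3 => h x y z (hG h1) (hG h2) (hG h3)⟩

/-- Weakly leveled planar graphs: levels of vertices, edges only between consecutive vertices of a
level or between consecutive levels, the latter without crossings. -/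
structure WeaklyLeveled {V : Type} (G : SimpleGraph V) (lev pos : V → ℕ) : Prop where
  inj : ∀ u v, lev u = lev v → pos u = pos v → u = v
  edge : ∀ u v, G.Adj u v → lev u ≤ lev v →
    (lev u = lev v ∧ ∀ w, lev w = lev u → ¬ (pos u < pos w ∧ pos w < pos v) ∧
      ¬ (pos v < pos w ∧ pos w < pos u)) ∨
    lev v = lev u + 1
  mono : ∀ u v u' v', G.Adj u v → G.Adj u' v' →
    lev v = lev u + 1 → lev u' = lev u → lev v' = lev v → pos u < pos u' → pos v ≤ pos v'

/-- Remark: every weakly leveled planar graph on at least three vertices satisfies the condition on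
`G₂`. -/
theorem weaklyLeveled {n : ℕ} (hn : 3 ≤ n) (G : SimpleGraph (Fin n)) (lev pos : Fin n → ℕ)
    (hL : WeaklyLeveled G lev pos) : ∃ t h lev' pos', Leveled G t h lev' pos' := by
  obtain ⟨t, h, lev', pos', hh, h1⟩ :=
    Pool.Agent.SGL.H90.wlev_class hn G lev pos ⟨hL.inj, hL.edge, hL.mono⟩
  exact ⟨t, h, lev', pos',
    ⟨hh, h1.inj, h1.le, h1.ne0, h1.neh, h1.path, h1.next, h1.mono, h1.last, h1.one⟩⟩

/-- Two-track graphs with the tracks `X ∪ {c}` and `Y ∪ {c}`, where `Y` is the set of the vertices not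
in `X` and different from `c`.  The vertices are ordered by the different numbers `r v`, `c` is the last
vertex of both tracks.  The edges inside a track do not cross if they are drawn above the track, and
the edges between `X` and `Y` do not cross if `X` and `Y` are put on two parallel lines. -/
structure TwoTrack {V : Type} (G : SimpleGraph V) (c : V) (X : Set V) (r : V → ℕ) : Prop where
  inj : Function.Injective r
  last : ∀ v, v ≠ c → r v < r c
  notMem : c ∉ X
  left : ∀ x y z t, (x ∈ X ∨ x = c) → (y ∈ X ∨ y = c) → (z ∈ X ∨ z = c) → (t ∈ X ∨ t = c) →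
    r x < r y → r y < r z → r z < r t → ¬ (G.Adj x z ∧ G.Adj y t)
  right : ∀ x y z t, x ∉ X → y ∉ X → z ∉ X → t ∉ X →
    r x < r y → r y < r z → r z < r t → ¬ (G.Adj x z ∧ G.Adj y t)
  strip : ∀ x x' y y', x ∈ X → x' ∈ X → y ∉ X → y' ∉ X → y ≠ c → y' ≠ c →
    G.Adj x y → G.Adj x' y' → r x < r x' → r y ≤ r y'

/-- Remark: every two-track graph on at least three vertices satisfies the condition on `G₂`. -/
theorem twoTrack {n : ℕ} (hn : 3 ≤ n) (G : SimpleGraph (Fin n)) (c : Fin n) (X : Set (Fin n))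
    (r : Fin n → ℕ) (hL : TwoTrack G c X r) : ∃ t h lev' pos', Leveled G t h lev' pos' := by
  obtain ⟨h, lev', pos', hh, h1⟩ := Pool.Agent.SGL.H90.tlu hn G c X r
    ⟨hL.inj, hL.last, hL.notMem, hL.left, hL.right, hL.strip⟩
  exact ⟨c, h, lev', pos',
    ⟨hh, h1.inj, h1.le, h1.ne0, h1.neh, h1.path, h1.next, h1.mono, h1.last, h1.one⟩⟩

/-- **Main theorem** (Q1 for all pairs of a graph `G₁ ≤ T`, `T` maximal planar, whose triangles
without the vertex `a` do not separate `T`, and a leveled graph `G₂`): there is one set `P` of exactly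
`n` points such that both graphs have straight-line crossing-free drawings with all vertices in
`P`. -/
theorem result : ∀ (n : ℕ) (G₁ G₂ : SimpleGraph (Fin n)),
    (∃ T a, MaximalPlanar T ∧ G₁ ≤ T ∧ TrianglesAt G₁ T a) →
    (∃ t h lev pos, Leveled G₂ t h lev pos) →
    ∃ P : Finset (ℝ × ℝ), P.card = n ∧ (∃ f, Drawing G₁ f ∧ ∀ u, f u ∈ P) ∧
      ∃ f, Drawing G₂ f ∧ ∀ u, f u ∈ P := by
  intro n G₁ G₂ h₁ h₂
  obtain ⟨T, a, hT, hG, hN⟩ := h₁
  obtain ⟨t, h, lev, pos, hL⟩ := h₂
  obtain ⟨P, hP, ⟨f, hf, hf'⟩, g, hg, hg'⟩ :=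
    Pool.Agent.SGL.H90.fin_all n G₁ G₂ a ⟨T, maxpl hT, hG, hN⟩ t h lev pos hL.height
    ⟨hL.inj, hL.le, hL.bottom, hL.top, hL.path, hL.next, hL.mono, hL.last, hL.one⟩
  exact ⟨P, hP, ⟨f, draw_iff.1 hf, hf'⟩, g, draw_iff.1 hg, hg'⟩

end Pool.Agent.Results.MP_41797f_co.TriangleFreeLeveled
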